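import Pool.Agent.Run7.h188.Cover

/-! The number of omissible points on the union of `j` lines. -/

namespace Pool.Agent.Results.MP_7e2fab_co.FewLines

open Run7.h188 Finset

/-- the coefficients of the line through `a` and `b` -/
def coef (a b : ℝ × ℝ) : ℝ × ℝ × ℝ :=
  (-(b.2 - a.2), b.1 - a.1, (b.2 - a.2) * a.1 - (b.1 - a.1) * a.2)

lemma lf_coef (a b r : ℝ × ℝ) : lf (coef a b) r = cr a b r := by
  simp only [lf, coef, cr]; ring

/-- **Omissible points on few lines.** Let `X` be a finite set of points of the plane, not all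
on one line, and let `L` be a finite set of lines. Then at most
`(n + 5 j (j - 1)) / 3` omissible points of `X` lie on lines of `L`, where `n` is the number of
points of `X` and `j` the number of lines of `L`. -/
theorem result (X : Finset (ℝ × ℝ)) (hX : ¬ Collinear ℝ (X : Set (ℝ × ℝ)))
    (L : Finset (AffineSubspace ℝ (ℝ × ℝ)))
    (hL : ∀ ℓ ∈ L, ∃ a b : ℝ × ℝ, a ≠ b ∧ ℓ = affineSpan ℝ {a, b}) :
    3 * {x | Omissible (X : Set (ℝ × ℝ)) x ∧ ∃ ℓ ∈ L, x ∈ ℓ}.ncard ≤
      X.card + 5 * (L.card * (L.card - 1)) := by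
  classical
  choose! a b hab hℓ using hL
  have hmem : ∀ ℓ ∈ L, ∀ r, r ∈ ℓ ↔ lf (coef (a ℓ) (b ℓ)) r = 0 := by
    intro ℓ h r
    rw [lf_coef, ← mem_line_iff (hab ℓ h), ← hℓ ℓ h]
  have hl : ∀ ℓ ∈ L, 0 < (coef (a ℓ) (b ℓ)).1 ^ 2 + (coef (a ℓ) (b ℓ)).2.1 ^ 2 := by
    intro ℓ h
    have := sq_pos_of_ne (hab ℓ h)
    simp only [coef]
    linarith
  have hd : ∀ ℓ ∈ L, ∀ ℓ' ∈ L, ℓ ≠ ℓ' → ∃ m, det3 m (coef (a ℓ') (b ℓ')) (coef (a ℓ) (b ℓ)) ≠ 0 := by
    intro ℓ h ℓ' h' hne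
    by_contra hcon
    push Not at hcon
    apply hne
    -- the two coefficient vectors are parallel
    have e1 := hcon (1, 0, 0)
    have e2 := hcon (0, 1, 0)
    have e3 := hcon (0, 0, 1)
    have hl' := hl ℓ' h'
    have hl0 := hl ℓ h
    set u := coef (a ℓ) (b ℓ) with hu
    set v := coef (a ℓ') (b ℓ') with hv
    simp only [det3] at e1 e2 e3
    have key : ∀ r, lf u r = 0 → lf v r = 0 := by
      intro r hr
      have f1 : u.1 * lf v r = 0 := by
        have : u.1 * lf v r = v.1 * lf u r := by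
          simp only [lf]; linear_combination (-r.2) * e3 + e2
        rw [this, hr, mul_zero]
      have f2 : u.2.1 * lf v r = 0 := by
        have : u.2.1 * lf v r = v.2.1 * lf u r := by
          simp only [lf]; linear_combination r.1 * e3 - e1
        rw [this, hr, mul_zero]
      by_contra hne0
      have g1 := (mul_eq_zero.1 f1).resolve_right hne0
      have g2 := (mul_eq_zero.1 f2).resolve_right hne0
      rw [g1, g2] at hl0
      norm_num at hl0
    have ha : cr (a ℓ') (b ℓ') (a ℓ) = 0 := by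
      rw [← lf_coef]; apply key; rw [hu, lf_coef]; simp
    have hb : cr (a ℓ') (b ℓ') (b ℓ) = 0 := by
      rw [← lf_coef]; apply key; rw [hu, lf_coef]; simp
    rw [hℓ ℓ h, hℓ ℓ' h']
    exact line_eq (hab ℓ' h') (hab ℓ h) ha hb
  have main := cover hX L (fun ℓ => coef (a ℓ) (b ℓ)) hl hd
  have hset : {x | Omissible (X : Set (ℝ × ℝ)) x ∧ ∃ ℓ ∈ L, x ∈ ℓ} =
      (((om X).filter fun x => ¬ ∀ i ∈ L, lf (coef (a i) (b i)) x ≠ 0 : Finset (ℝ × ℝ)) :
        Set (ℝ × ℝ)) := by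
    ext x
    simp only [Set.mem_ofPred_eq, coe_filter, om, mem_filter]
    push Not
    constructor
    · rintro ⟨h1, ℓ, h2, h3⟩
      exact ⟨⟨h1.1, h1⟩, ℓ, h2, (hmem ℓ h2 x).1 h3⟩
    · rintro ⟨h1, ℓ, h2, h3⟩
      exact ⟨h1.2, ℓ, h2, (hmem ℓ h2 x).2 h3⟩
  rw [hset, Set.ncard_coe_finset]
  have hsplit := card_filter_add_card_filter_not (s := om X)
    (fun x => ∀ i ∈ L, lf (coef (a i) (b i)) x ≠ 0)
  omega

end Pool.Agent.Results.MP_7e2fab_co.FewLines
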